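import Mathlib

/-!
# Configurations of symplectic surfaces and their coverings

Let `M` be a closed symplectic four-manifold with `c₁(M)² ≤ 3 c₂(M)`, and let `S i` be finitely
many embedded symplectic surfaces of genus `g i` with `1 - g i ≤ (S i)² ≤ 0` (for example tori of
square zero), any two of which meet transversally and positively, with ordinary multiple points.
Suppose that the span of their classes in `H₂(M; ℝ)` contains no four-dimensional space on which
the intersection form is negative definite. This is automatic if `b⁻(M) ≤ 3`, for example for the
four-torus, where `b⁻ = 3` and `c₁² = c₂ = 0`. The structure `Config` records the numerical data: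
the intersection form, the classes, and which surfaces pass through which of the points.

Let `M'` be the blow up of `M` at the points that lie on at least three of the surfaces. The proper
transforms `D i` of the surfaces and the exceptional spheres `E p` meet transversally, with at most
two of them through a point. Let `Y → M'` be a finite covering of closed four-manifolds of degree
`d`, branched along the `D i` with order `n i` and along the `E p` with order `m p` (the order is
`1` if there is no branching), of the local form `(u, v) ↦ (u ^ n, v ^ m)` at the crossings. Put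
`α i = 1 - 1 / n i` and `β p = 1 - 1 / m p`. Then `Y` is symplectic and its canonical class is the
pull back of `K(M') + ∑ α i D i + ∑ β p E p`, so

* `c₁(Y)² = d * c1sq α β`, where `c1sq α β` is the self-intersection of this class, computed in
  the homology `H₂(M') = H₂(M) ⊕ ℝ^{E p}`;
* `c₂(Y) = d * c2 α β`, where `c2 α β` is the sum of the Euler characteristics of the strata of
  `M'`, weighted with the inverses of the orders.
-/

open Finset

namespace Pool.Agent.Helper88.TC

noncomputable section

/-- Numerical data of a configuration of symplectic surfaces with ordinary multiple points in a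
closed symplectic four-manifold `M` with `c₁(M)² ≤ 3 c₂(M)`. -/
structure Config where
  /-- the second homology `H₂(M; ℝ)` -/
  H : Type
  [grp : AddCommGroup H]
  [mod : Module ℝ H]
  /-- the intersection form of `M` -/
  Q : H →ₗ[ℝ] H →ₗ[ℝ] ℝ
  /-- it is symmetric -/
  Q_comm : ∀ x y, Q x y = Q y x
  /-- the canonical class of `M` -/
  K : H
  /-- the Euler characteristic of `M` -/
  e : ℤ
  /-- `c₁(M)² ≤ 3 c₂(M)` -/
  bmy : Q K K ≤ 3 * e
  /-- the index set of the surfaces -/
  ι : Type
  [fι : Fintype ι]
  [dι : DecidableEq ι]
  /-- the classes of the surfaces -/
  S : ι → H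
  /-- the genera of the surfaces -/
  g : ι → ℤ
  /-- the self-intersections are at most zero -/
  S_sq_le : ∀ i, Q (S i) (S i) ≤ 0
  /-- the self-intersections are at least `1 - g` -/
  le_S_sq : ∀ i, 1 - g i ≤ Q (S i) (S i)
  /-- the adjunction formula -/
  adjunction : ∀ i, Q (S i) (S i) + Q K (S i) = 2 * g i - 2
  /-- the span of the classes of the surfaces contains no four-dimensional space on which the
  intersection form is negative definite (automatic if `b⁻(M) ≤ 3`) -/
  index_le : ∀ f : Fin 4 → H, (∀ l, f l ∈ Submodule.span ℝ (Set.range S)) →
    ∃ c : Fin 4 → ℝ, c ≠ 0 ∧ 0 ≤ Q (∑ l, c l • f l) (∑ l, c l • f l)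
  /-- the points that lie on at least two of the surfaces -/
  P : Type
  [fP : Fintype P]
  [dP : DecidableEq P]
  /-- the surfaces through the point `p` -/
  on : P → Finset ι
  /-- there are at least two of them -/
  two_le : ∀ p, 2 ≤ (on p).card
  /-- the intersection number of two of the surfaces is the number of their common points -/
  S_S : ∀ i j, i ≠ j → Q (S i) (S j) = ((univ.filter fun p => i ∈ on p ∧ j ∈ on p).card : ℝ)

attribute [instance] Config.grp Config.mod Config.fι Config.dι Config.fP Config.dP

namespace Config

variable (C : Config)

/-- The points that are blown up: those on at least three of the surfaces. -/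
abbrev P₃ : Type := {p : C.P // 3 ≤ (C.on p).card}

/-- The double points. -/
def P₂ : Finset C.P := univ.filter fun p => (C.on p).card = 2

/-- The second homology of the blow up `M'`. -/
abbrev H' : Type := C.H × (C.P₃ → ℝ)

/-- The intersection form of `M'`: the exceptional spheres have square `-1`. -/
def Q' (x y : C.H') : ℝ := C.Q x.1 y.1 - ∑ p, x.2 p * y.2 p

/-- The canonical class of `M'`. -/
def K' : C.H' := (C.K, fun _ => 1)

/-- The class of the proper transform of the surface `i`. -/
def D (i : C.ι) : C.H' := (C.S i, fun p => if i ∈ C.on p then -1 else 0)

/-- The class of the exceptional sphere over `p`. -/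
def E (p : C.P₃) : C.H' := (0, Pi.single p 1)

/-- The class whose pull back is the canonical class of the covering. -/
def can (α : C.ι → ℝ) (β : C.P₃ → ℝ) : C.H' := C.K' + ∑ i, α i • C.D i + ∑ p, β p • C.E p

/-- `c₁² / degree` of the covering. -/
def c1sq (α : C.ι → ℝ) (β : C.P₃ → ℝ) : ℝ := C.Q' (C.can α β) (C.can α β)

/-- The Euler characteristic of the blow up `M'`. -/
def eulerBlowup : ℝ := C.e + Fintype.card C.P₃

/-- The Euler characteristic of the union of the proper transforms of the surfaces and of the
exceptional spheres: the sum of the Euler characteristics minus the number of crossings. -/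
def eulerUnion : ℝ :=
  ∑ i, (2 - 2 * C.g i : ℝ) + ∑ _p : C.P₃, 2 - ((∑ p : C.P₃, ((C.on p.1).card : ℝ)) + C.P₂.card)

/-- The number of crossings on the proper transform of the surface `i`. -/
def num (i : C.ι) : ℕ := (univ.filter fun p => i ∈ C.on p).card

/-- `c₂ / degree` of the covering: contributions of the complement of the curves, the surfaces, the
exceptional spheres, the crossings of a surface with an exceptional sphere, and the crossings of
two surfaces. -/
def c2 (α : C.ι → ℝ) (β : C.P₃ → ℝ) : ℝ :=
  (C.eulerBlowup - C.eulerUnion) +
    ∑ i, (1 - α i) * (2 - 2 * C.g i - C.num i) +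
    ∑ p : C.P₃, (1 - β p) * (2 - (C.on p.1).card) +
    ∑ p : C.P₃, ∑ i ∈ C.on p.1, (1 - α i) * (1 - β p) +
    ∑ p ∈ C.P₂, ∏ i ∈ C.on p, (1 - α i)

end Config

end

end Pool.Agent.Helper88.TC
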