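import Pool.Agent.Helper88.TC.Trace
import Pool.Agent.Helper88.TC.Config

/-!
# The Bogomolov-Miyaoka-Yau inequality for coverings branched along symplectic surfaces
-/

open Finset

namespace Pool.Agent.Helper88.TC

namespace Config

noncomputable section

variable (C : Config)

/-- The sum of the weights through `p`. -/
def A (α : C.ι → ℝ) (p : C.P) : ℝ := ∑ i ∈ C.on p, α i

/-- The sum of the squares of the weights through `p`. -/
def B (α : C.ι → ℝ) (p : C.P) : ℝ := ∑ i ∈ C.on p, α i ^ 2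

/-- The Gram matrix without its diagonal. -/
def G (i j : C.ι) : ℝ := if i = j then 0 else C.Q (C.S i) (C.S j)

/-- Minus the self-intersection. -/
def q (i : C.ι) : ℝ := - C.Q (C.S i) (C.S i)

theorem q_nonneg (i : C.ι) : 0 ≤ C.q i := by
  have := C.S_sq_le i
  unfold q
  linarith

theorem G_eq (i j : C.ι) :
    C.G i j = ∑ p, (if i ∈ C.on p then 1 else 0) * (if j ∈ C.on p then 1 else 0) -
      if i = j then ∑ p, (if i ∈ C.on p then 1 else 0) else 0 := by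
  unfold G
  split_ifs with h
  · subst h
    rw [eq_comm, sub_eq_zero]
    refine Finset.sum_congr rfl fun p _ => ?_
    split_ifs <;> simp
  · rw [C.S_S i j h, sub_zero, Finset.card_filter]
    push_cast
    refine Finset.sum_congr rfl fun p _ => ?_
    by_cases h1 : i ∈ C.on p <;> by_cases h2 : j ∈ C.on p <;> simp [h1, h2]

theorem A_eq (x : C.ι → ℝ) (p : C.P) : C.A x p = ∑ i, (if i ∈ C.on p then 1 else 0) * x i := by
  unfold A
  simp only [ite_mul, one_mul, zero_mul, Finset.sum_ite_mem, Finset.univ_inter]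

theorem B_eq (x : C.ι → ℝ) (p : C.P) :
    C.B x p = ∑ i, (if i ∈ C.on p then 1 else 0) * x i ^ 2 := by
  exact C.A_eq (fun i => x i ^ 2) p

theorem quad_G (x : C.ι → ℝ) :
    ∑ i, ∑ j, x i * x j * C.G i j = ∑ p, (C.A x p ^ 2 - C.B x p) := by
  have h1 : ∀ i j, x i * x j * C.G i j =
      ∑ p, ((if i ∈ C.on p then 1 else 0) * x i) * ((if j ∈ C.on p then 1 else 0) * x j) -
        if i = j then ∑ p, (if i ∈ C.on p then 1 else 0) * (x i * x j) else 0 := by
    intro i j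
    rw [G_eq, mul_sub, Finset.mul_sum]
    congr 1
    · exact Finset.sum_congr rfl fun p _ => by ring
    · split_ifs
      · rw [Finset.mul_sum]
        exact Finset.sum_congr rfl fun p _ => by ring
      · ring
  simp only [h1, Finset.sum_sub_distrib]
  congr 1
  · simp only [C.A_eq, sq, Finset.sum_mul_sum]
    rw [Finset.sum_comm' (s := univ) (t := fun _ => univ) (t' := univ) (s' := fun _ => univ)
      (by simp)]
    rw [Finset.sum_congr rfl fun j _ => Finset.sum_comm]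
    rw [Finset.sum_comm]
    refine Finset.sum_congr rfl fun p _ => ?_
    rw [Finset.sum_comm]
  · simp only [Finset.sum_ite_eq, Finset.mem_univ, if_true, C.B_eq]
    rw [Finset.sum_comm]
    exact Finset.sum_congr rfl fun p _ => Finset.sum_congr rfl fun i _ => by ring

/-- The points are double points or lie on at least three surfaces. -/
theorem sum_split (f : C.P → ℝ) : ∑ p, f p = ∑ p : C.P₃, f p.1 + ∑ p ∈ C.P₂, f p := by
  rw [← Finset.sum_filter_add_sum_filter_not Finset.univ (fun p => 3 ≤ (C.on p).card)]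
  congr 1
  · exact Finset.sum_subtype (univ.filter fun p => 3 ≤ (C.on p).card)
      (fun p => by simp) f
  · refine Finset.sum_congr ?_ fun _ _ => rfl
    ext p
    have := C.two_le p
    simp only [P₂, Finset.mem_filter, Finset.mem_univ, true_and]
    omega

theorem P₂_spec (α : C.ι → ℝ) (p : C.P) (hp : p ∈ C.P₂) : ∃ i j, i ≠ j ∧ C.on p = {i, j} ∧
    C.A α p = α i + α j ∧ C.B α p = α i ^ 2 + α j ^ 2 ∧ ∏ l ∈ C.on p, α l = α i * α j := by
  have h := (Finset.mem_filter.mp hp).2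
  obtain ⟨i, j, hij, h⟩ := Finset.card_eq_two.mp h
  refine ⟨i, j, hij, h, ?_, ?_, ?_⟩
  · rw [A, h, Finset.sum_pair hij]
  · rw [B, h, Finset.sum_pair hij]
  · rw [h, Finset.prod_pair hij]

/-- The scaling. -/
def w (α : C.ι → ℝ) (p : C.P) (i : C.ι) : ℝ :=
  if 3 ≤ (C.on p).card then 1 else (C.A α p - α i) / α i

/-- The scaling. -/
def del (α : C.ι → ℝ) (ε : ℝ) (i : C.ι) : ℝ :=
  ∑ p, (if i ∈ C.on p then 1 else 0) * C.w α p i + ε

theorem w_nonneg (α : C.ι → ℝ) (hα : ∀ i, 0 < α i) (p : C.P) (i : C.ι) (hi : i ∈ C.on p) :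
    0 ≤ C.w α p i := by
  unfold w
  split_ifs
  · exact zero_le_one
  · refine div_nonneg ?_ (hα i).le
    have : α i ≤ C.A α p := Finset.single_le_sum (f := α) (fun j _ => (hα j).le) hi
    linarith

theorem del_pos (α : C.ι → ℝ) (hα : ∀ i, 0 < α i) (ε : ℝ) (hε : 0 < ε) (i : C.ι) :
    0 < C.del α ε i := by
  unfold del
  refine add_pos_of_nonneg_of_pos (Finset.sum_nonneg fun p _ => ?_) hε
  split_ifs with h
  · rw [one_mul]
    exact C.w_nonneg α hα p i h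
  · rw [zero_mul]

theorem sum_del (α : C.ι → ℝ) (ε : ℝ) (x : C.ι → ℝ) :
    ∑ i, C.del α ε i * x i ^ 2 =
      ∑ p : C.P₃, C.B x p.1 + ∑ p ∈ C.P₂, ∑ i ∈ C.on p, (C.A α p - α i) / α i * x i ^ 2 +
        ε * ∑ i, x i ^ 2 := by
  have h1 : ∑ i, C.del α ε i * x i ^ 2 = ∑ p, (∑ i ∈ C.on p, C.w α p i * x i ^ 2) +
      ε * ∑ i, x i ^ 2 := by
    unfold del
    simp only [add_mul, Finset.sum_add_distrib, Finset.sum_mul, Finset.mul_sum]
    congr 1
    rw [Finset.sum_comm]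
    refine Finset.sum_congr rfl fun p _ => ?_
    simp only [ite_mul, one_mul, zero_mul, Finset.sum_ite_mem, Finset.univ_inter]
  rw [h1, C.sum_split]
  congr 2
  · refine Finset.sum_congr rfl fun p _ => ?_
    unfold B w
    refine Finset.sum_congr rfl fun i _ => ?_
    rw [if_pos p.2, one_mul]
  · refine Finset.sum_congr rfl fun p hp => ?_
    have h := (Finset.mem_filter.mp hp).2
    refine Finset.sum_congr rfl fun i _ => ?_
    unfold w
    rw [if_neg (by omega)]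

theorem low (α : C.ι → ℝ) (hα : ∀ i, 0 < α i) (ε : ℝ) (hε : 0 < ε) (x : C.ι → ℝ) :
    0 ≤ ∑ i, ∑ j, x i * x j * C.G i j + ∑ i, C.del α ε i * x i ^ 2 := by
  rw [C.quad_G, C.sum_del, C.sum_split]
  have h1 : ∑ p : C.P₃, (C.A x p.1 ^ 2 - C.B x p.1) + ∑ p : C.P₃, C.B x p.1 =
      ∑ p : C.P₃, C.A x p.1 ^ 2 := by
    rw [← Finset.sum_add_distrib]
    exact Finset.sum_congr rfl fun p _ => by ring
  have h2 : 0 ≤ ∑ p ∈ C.P₂, (C.A x p ^ 2 - C.B x p) +
      ∑ p ∈ C.P₂, ∑ i ∈ C.on p, (C.A α p - α i) / α i * x i ^ 2 := by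
    rw [← Finset.sum_add_distrib]
    refine Finset.sum_nonneg fun p hp => ?_
    obtain ⟨i, j, hij, h, _, _, _⟩ := C.P₂_spec α p hp
    have hi := hα i
    have hj := hα j
    simp only [A, B, h, Finset.sum_pair hij]
    have : (x i + x j) ^ 2 - (x i ^ 2 + x j ^ 2) +
        ((α i + α j - α i) / α i * x i ^ 2 + (α i + α j - α j) / α j * x j ^ 2) =
        (α j * x i + α i * x j) ^ 2 / (α i * α j) := by
      field_simp
      ring
    rw [this]
    positivity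
  have h3 : 0 ≤ ∑ p : C.P₃, C.A x p.1 ^ 2 := Finset.sum_nonneg fun p _ => sq_nonneg _
  have h4 : 0 ≤ ε * ∑ i, x i ^ 2 := mul_nonneg hε.le (Finset.sum_nonneg fun i _ => sq_nonneg _)
  linarith

theorem Q_sum (y : C.ι → ℝ) :
    C.Q (∑ i, y i • C.S i) (∑ i, y i • C.S i) =
      ∑ i, ∑ j, y i * y j * C.G i j - ∑ i, C.q i * y i ^ 2 := by
  have h1 : C.Q (∑ i, y i • C.S i) (∑ i, y i • C.S i) =
      ∑ i, ∑ j, y i * y j * C.Q (C.S i) (C.S j) := by
    simp only [map_sum, map_smul, LinearMap.sum_apply, LinearMap.smul_apply, smul_eq_mul,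
      Finset.mul_sum]
    rw [Finset.sum_comm]
    exact Finset.sum_congr rfl fun i _ => Finset.sum_congr rfl fun j _ => by ring
  have h2 : ∀ i j, y i * y j * C.Q (C.S i) (C.S j) =
      y i * y j * C.G i j - if i = j then C.q i * y i ^ 2 else 0 := by
    intro i j
    unfold G q
    split_ifs with h
    · subst h
      ring
    · ring
  rw [h1, ← Finset.sum_sub_distrib]
  refine Finset.sum_congr rfl fun i _ => ?_
  simp only [h2, Finset.sum_sub_distrib, Finset.sum_ite_eq, Finset.mem_univ, if_true]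

theorem neg (f : Fin 4 → C.ι → ℝ) : ∃ c : Fin 4 → ℝ, c ≠ 0 ∧
    0 ≤ ∑ i, ∑ j, (∑ l, c l * f l i) * (∑ l, c l * f l j) * C.G i j := by
  obtain ⟨c, hc0, hc⟩ := C.index_le (fun l => ∑ i, f l i • C.S i) (fun l =>
    Submodule.sum_mem _ fun i _ => Submodule.smul_mem _ _ (Submodule.subset_span ⟨i, rfl⟩))
  refine ⟨c, hc0, ?_⟩
  have h1 : ∑ l, c l • ∑ i, f l i • C.S i = ∑ i, (∑ l, c l * f l i) • C.S i := by
    simp only [Finset.smul_sum, smul_smul, Finset.sum_smul]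
    rw [Finset.sum_comm]
  rw [h1, C.Q_sum] at hc
  have h2 : 0 ≤ ∑ i, C.q i * (∑ l, c l * f l i) ^ 2 :=
    Finset.sum_nonneg fun i _ => mul_nonneg (C.q_nonneg i) (sq_nonneg _)
  linarith

/-- The main inequality for positive weights. -/
theorem main_pos (α : C.ι → ℝ) (hα : ∀ i, 0 < α i) (ε : ℝ) (hε : 0 < ε) :
    ∑ p, (C.A α p ^ 2 - C.B α p) ≤
      3 * (∑ p : C.P₃, C.B α p.1 + ∑ p ∈ C.P₂, (C.A α p ^ 2 - C.B α p) + ε * ∑ i, α i ^ 2) := by
  have h1 := scaled_quad_le C.G (fun i j => by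
      unfold G
      split_ifs with h h' h'
      · rfl
      · exact absurd h.symm h'
      · exact absurd h'.symm h
      · exact C.Q_comm _ _) (fun i => if_pos rfl) (C.del α ε)
    (C.del_pos α hα ε hε) (C.low α hα ε hε) C.neg α
  rw [C.quad_G, C.sum_del] at h1
  refine h1.trans (le_of_eq ?_)
  congr 3
  refine Finset.sum_congr rfl fun p _ => ?_
  unfold A B
  rw [sq, Finset.sum_mul, ← Finset.sum_sub_distrib]
  refine Finset.sum_congr rfl fun i _ => ?_
  have := (hα i).ne'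
  field_simp

/-- The main inequality. -/
theorem main (α : C.ι → ℝ) (hα : ∀ i, 0 ≤ α i) :
    ∑ p, (C.A α p ^ 2 - C.B α p) ≤
      3 * (∑ p : C.P₃, C.B α p.1 + ∑ p ∈ C.P₂, (C.A α p ^ 2 - C.B α p)) := by
  let F : ℝ → ℝ := fun t =>
    3 * (∑ p : C.P₃, C.B (fun i => α i + t) p.1 +
      ∑ p ∈ C.P₂, (C.A (fun i => α i + t) p ^ 2 - C.B (fun i => α i + t) p) +
        t * ∑ i, (α i + t) ^ 2) -
      ∑ p, (C.A (fun i => α i + t) p ^ 2 - C.B (fun i => α i + t) p)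
  have hF : Continuous F := by
    simp only [F, A, B]
    fun_prop
  have hpos : ∀ t ∈ Set.Ioi (0 : ℝ), 0 ≤ F t := by
    intro t ht
    have := C.main_pos (fun i => α i + t) (fun i => by
      have := hα i
      have h2 : (0 : ℝ) < t := ht
      linarith) t ht
    simp only [F]
    linarith
  have hcl : IsClosed {t : ℝ | 0 ≤ F t} := isClosed_le continuous_const hF
  have h0 : (0 : ℝ) ∈ {t : ℝ | 0 ≤ F t} := by
    have h1 : closure (Set.Ioi (0 : ℝ)) ⊆ {t : ℝ | 0 ≤ F t} :=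
      hcl.closure_subset_iff.mpr hpos
    rw [closure_Ioi] at h1
    exact h1 (Set.mem_Ici.mpr le_rfl)
  have h2 : 0 ≤ F 0 := h0
  simp only [F, add_zero, zero_mul] at h2
  linarith

theorem prod_P₂ (α : C.ι → ℝ) (p : C.P) (hp : p ∈ C.P₂) :
    ∏ i ∈ C.on p, (1 - α i) = 1 - C.A α p + (C.A α p ^ 2 - C.B α p) / 2 := by
  obtain ⟨i, j, hij, h, h1, h2, _⟩ := C.P₂_spec α p hp
  rw [h1, h2, h, Finset.prod_pair hij]
  ring

theorem c1sq_eq (α : C.ι → ℝ) (β : C.P₃ → ℝ) :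
    C.c1sq α β = C.Q C.K C.K + ∑ i, 2 * α i * C.Q C.K (C.S i) - ∑ i, C.q i * α i ^ 2 +
      ∑ p, (C.A α p ^ 2 - C.B α p) - ∑ p : C.P₃, (1 - C.A α p.1 + β p) ^ 2 := by
  have h1 : (C.can α β).1 = C.K + ∑ i, α i • C.S i := by
    simp [can, K', D, E, Prod.fst_sum]
  have h2 : ∀ p, (C.can α β).2 p = 1 - C.A α p.1 + β p := by
    intro p
    have h3 : (∑ i, α i • C.D i).2 p = - C.A α p.1 := by
      rw [Prod.snd_sum, Finset.sum_apply, C.A_eq, ← Finset.sum_neg_distrib]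
      refine Finset.sum_congr rfl fun i _ => ?_
      simp only [D, Prod.smul_snd, Pi.smul_apply, smul_eq_mul]
      split_ifs <;> ring
    have h4 : (∑ p, β p • C.E p).2 p = β p := by
      rw [Prod.snd_sum, Finset.sum_apply, Finset.sum_eq_single p]
      · simp [E]
      · intro p' _ hp'
        simp [E, hp'.symm]
      · simp
    simp only [can, Prod.snd_add, Pi.add_apply, h3, h4, K']
    ring
  unfold c1sq Q'
  rw [h1]
  simp only [h2]
  have h5 : C.Q (∑ i, α i • C.S i) C.K = ∑ i, α i * C.Q C.K (C.S i) := by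
    rw [C.Q_comm, map_sum]
    simp
  have h6 : C.Q C.K (∑ i, α i • C.S i) = ∑ i, α i * C.Q C.K (C.S i) := by
    rw [map_sum]
    simp
  have h7 : ∑ i, 2 * α i * C.Q C.K (C.S i) = 2 * ∑ i, α i * C.Q C.K (C.S i) := by
    rw [Finset.mul_sum]
    exact Finset.sum_congr rfl fun i _ => by ring
  have h8 : ∑ p : C.P₃, (1 - C.A α p.1 + β p) * (1 - C.A α p.1 + β p) =
      ∑ p : C.P₃, (1 - C.A α p.1 + β p) ^ 2 :=
    Finset.sum_congr rfl fun p _ => by ring
  have h9 : C.Q (C.K + ∑ i, α i • C.S i) (C.K + ∑ i, α i • C.S i) = C.Q C.K C.K +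
      C.Q (∑ i, α i • C.S i) C.K + (C.Q C.K (∑ i, α i • C.S i) +
        C.Q (∑ i, α i • C.S i) (∑ i, α i • C.S i)) := by
    rw [map_add, map_add, LinearMap.add_apply, LinearMap.add_apply]
  rw [h9, h5, h6, C.Q_sum, C.quad_G, h7, h8]
  ring

theorem c2_eq (α : C.ι → ℝ) (β : C.P₃ → ℝ) :
    C.c2 α β = C.e + ∑ i, α i * (2 * C.g i - 2) +
      ∑ p : C.P₃, (C.A α p.1 - 1 + (1 - β p) * (2 - C.A α p.1)) +
      ∑ p ∈ C.P₂, (C.A α p ^ 2 - C.B α p) / 2 := by
  have h1 : ∑ i, (1 - α i) * (C.num i : ℝ) = ∑ p, (((C.on p).card : ℝ) - C.A α p) := by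
    have h2 : ∀ i, (1 - α i) * (C.num i : ℝ) =
        ∑ p, (if i ∈ C.on p then 1 else 0) * (1 - α i) := by
      intro i
      unfold num
      rw [Finset.card_filter]
      push_cast
      rw [← Finset.sum_mul, mul_comm]
    simp only [h2]
    rw [Finset.sum_comm]
    refine Finset.sum_congr rfl fun p _ => ?_
    rw [← C.A_eq (fun i => 1 - α i) p, A, A, Finset.sum_sub_distrib]
    simp
  have h2 : ∑ i, (1 - α i) * (2 - 2 * C.g i - C.num i : ℝ) =
      ∑ i, (2 - 2 * C.g i : ℝ) + ∑ i, α i * (2 * C.g i - 2) -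
        ∑ p, (((C.on p).card : ℝ) - C.A α p) := by
    rw [← h1, ← Finset.sum_add_distrib, ← Finset.sum_sub_distrib]
    exact Finset.sum_congr rfl fun i _ => by ring
  have h3 : ∑ p : C.P₃, ∑ i ∈ C.on p.1, (1 - α i) * (1 - β p) =
      ∑ p : C.P₃, (((C.on p.1).card : ℝ) - C.A α p.1) * (1 - β p) := by
    refine Finset.sum_congr rfl fun p _ => ?_
    rw [← Finset.sum_mul, Finset.sum_sub_distrib, A]
    simp
  have h4 : ∑ p ∈ C.P₂, ∏ i ∈ C.on p, (1 - α i) =
      ∑ p ∈ C.P₂, (1 - C.A α p + (C.A α p ^ 2 - C.B α p) / 2) :=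
    Finset.sum_congr rfl fun p hp => C.prod_P₂ α p hp
  have h5 : ∑ p ∈ C.P₂, (((C.on p).card : ℝ) - C.A α p) = ∑ p ∈ C.P₂, (2 - C.A α p) := by
    refine Finset.sum_congr rfl fun p hp => ?_
    rw [(Finset.mem_filter.mp hp).2]
    norm_num
  have h6 : (C.P₂.card : ℝ) = ∑ p ∈ C.P₂, (1 : ℝ) := by simp
  have h7 : (Fintype.card C.P₃ : ℝ) = ∑ p : C.P₃, (1 : ℝ) := by simp
  unfold c2 eulerBlowup eulerUnion
  rw [h2, h3, h4, C.sum_split, h5, h6, h7]
  have h8 : ∑ p : C.P₃, (1 : ℝ) - ∑ p : C.P₃, (2 : ℝ) + ∑ p : C.P₃, ((C.on p.1).card : ℝ) -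
      ∑ p : C.P₃, (((C.on p.1).card : ℝ) - C.A α p.1) +
      ∑ p : C.P₃, (1 - β p) * (2 - (C.on p.1).card) +
      ∑ p : C.P₃, (((C.on p.1).card : ℝ) - C.A α p.1) * (1 - β p) =
      ∑ p : C.P₃, (C.A α p.1 - 1 + (1 - β p) * (2 - C.A α p.1)) := by
    simp only [← Finset.sum_add_distrib, ← Finset.sum_sub_distrib]
    exact Finset.sum_congr rfl fun p _ => by ring
  have h9 : ∑ p ∈ C.P₂, (1 : ℝ) - ∑ p ∈ C.P₂, (2 - C.A α p) +
      ∑ p ∈ C.P₂, (1 - C.A α p + (C.A α p ^ 2 - C.B α p) / 2) =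
      ∑ p ∈ C.P₂, (C.A α p ^ 2 - C.B α p) / 2 := by
    simp only [← Finset.sum_add_distrib, ← Finset.sum_sub_distrib]
    exact Finset.sum_congr rfl fun p _ => by ring
  rw [← h8, ← h9]
  ring

/-- The Bogomolov-Miyaoka-Yau inequality, with the defect. -/
theorem bmy_defect (α : C.ι → ℝ) (hα : ∀ i, 0 ≤ α i) (β : C.P₃ → ℝ) :
    C.c1sq α β + (3 * C.e - C.Q C.K C.K) +
      ∑ i, 2 * α i * (C.g i - 1 + C.Q (C.S i) (C.S i)) +
      ∑ p : C.P₃, (C.A α p.1 / 2 + β p - 2) ^ 2 ≤ 3 * C.c2 α β := by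
  have hmain := C.main α hα
  rw [C.c1sq_eq, C.c2_eq]
  have h0 : ∑ i, 2 * α i * C.Q C.K (C.S i) =
      ∑ i, 2 * (α i * (2 * C.g i - 2)) + ∑ i, 2 * α i * C.q i := by
    rw [← Finset.sum_add_distrib]
    refine Finset.sum_congr rfl fun i _ => ?_
    have := C.adjunction i
    have h1 : C.Q C.K (C.S i) = 2 * C.g i - 2 + C.q i := by
      unfold q
      linarith
    rw [h1]
    ring
  have h1 : ∑ i, 2 * α i * (C.g i - 1 + C.Q (C.S i) (C.S i)) =
      ∑ i, (α i * (2 * C.g i - 2) : ℝ) - ∑ i, 2 * α i * C.q i := by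
    rw [← Finset.sum_sub_distrib]
    refine Finset.sum_congr rfl fun i _ => ?_
    unfold q
    ring
  have h2 : ∑ i, 2 * (α i * (2 * C.g i - 2) : ℝ) = 2 * ∑ i, (α i * (2 * C.g i - 2) : ℝ) := by
    rw [Finset.mul_sum]
  have h3 := C.sum_split (fun p => C.A α p ^ 2 - C.B α p)
  rw [h3] at hmain ⊢
  have h4 : ∑ p ∈ C.P₂, (C.A α p ^ 2 - C.B α p) / 2 =
      (∑ p ∈ C.P₂, (C.A α p ^ 2 - C.B α p)) / 2 := by
    rw [Finset.sum_div]
  have h5 : 0 ≤ ∑ i, C.q i * α i ^ 2 :=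
    Finset.sum_nonneg fun i _ => mul_nonneg (C.q_nonneg i) (sq_nonneg _)
  have h6 : 3 * ∑ p : C.P₃, (C.A α p.1 - 1 + (1 - β p) * (2 - C.A α p.1)) +
      ∑ p : C.P₃, (1 - C.A α p.1 + β p) ^ 2 - ∑ p : C.P₃, (C.A α p.1 ^ 2 - C.B α p.1) -
      ∑ p : C.P₃, (C.A α p.1 / 2 + β p - 2) ^ 2 =
      ∑ p : C.P₃, C.B α p.1 - (∑ p : C.P₃, C.A α p.1 ^ 2) / 4 := by
    rw [Finset.mul_sum, Finset.sum_div]
    simp only [← Finset.sum_add_distrib, ← Finset.sum_sub_distrib]
    exact Finset.sum_congr rfl fun p _ => by ring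
  rw [Finset.sum_sub_distrib (s := univ) (f := fun p : C.P₃ => C.A α p.1 ^ 2)] at hmain
  rw [h0, h1, h2, h4]
  linarith

end

end Config

end Pool.Agent.Helper88.TC
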