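import Mathlib

/-!
A symmetric real matrix of trace zero which is bounded below by `-1` and has at most three
negative eigenvalues is bounded above by `3`.
-/

open Finset Matrix

namespace Pool.Agent.Helper88.TC

variable {ι : Type} [Fintype ι] [DecidableEq ι]

theorem quad_le (S : Matrix ι ι ℝ) (hS : S.IsHermitian) (htr : S.trace = 0)
    (hlow : ∀ y, 0 ≤ y ⬝ᵥ S *ᵥ y + y ⬝ᵥ y)
    (hneg : ∀ f : Fin 4 → ι → ℝ, ∃ c : Fin 4 → ℝ, c ≠ 0 ∧
      0 ≤ (∑ l, c l • f l) ⬝ᵥ S *ᵥ (∑ l, c l • f l)) (y : ι → ℝ) :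
    y ⬝ᵥ S *ᵥ y ≤ 3 * (y ⬝ᵥ y) := by
  set v : ι → ι → ℝ := fun j => ⇑(hS.eigenvectorBasis j) with hv
  set e : ι → ℝ := hS.eigenvalues with he
  have orth : ∀ i j, v i ⬝ᵥ v j = if i = j then 1 else 0 := by
    intro i j
    have h1 := orthonormal_iff_ite.mp hS.eigenvectorBasis.orthonormal j i
    rw [EuclideanSpace.inner_eq_star_dotProduct] at h1
    simp only [star_trivial] at h1
    rw [hv]
    simp only
    rw [h1]
    by_cases h : i = j
    · simp [h]
    · simp [h, Ne.symm h]
  have hSv : ∀ j, S *ᵥ v j = e j • v j := fun j => hS.mulVec_eigenvectorBasis j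
  have expand : ∀ y : ι → ℝ, y = ∑ j, (v j ⬝ᵥ y) • v j := by
    intro y
    have h1 := hS.eigenvectorBasis.sum_repr (WithLp.toLp 2 y)
    have h2 := congrArg (fun z : EuclideanSpace ℝ ι => (z : ι → ℝ)) h1
    have h3 : ((∑ j, (hS.eigenvectorBasis.repr (WithLp.toLp 2 y)) j • hS.eigenvectorBasis j :
        EuclideanSpace ℝ ι) : ι → ℝ) = ∑ j, (v j ⬝ᵥ y) • v j := by
      funext k
      simp only [WithLp.ofLp_sum, WithLp.ofLp_smul, Finset.sum_apply, Pi.smul_apply, smul_eq_mul]
      refine Finset.sum_congr rfl fun j _ => ?_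
      rw [OrthonormalBasis.repr_apply_apply, EuclideanSpace.inner_eq_star_dotProduct]
      simp only [star_trivial]
      rw [dotProduct_comm]
    rw [← h3]
    exact h2.symm
  have quad' : ∀ (m : ℕ) (g : Fin m → ι), Function.Injective g → ∀ c : Fin m → ℝ,
      (∑ l, c l • v (g l)) ⬝ᵥ S *ᵥ (∑ l, c l • v (g l)) = ∑ l, e (g l) * c l ^ 2 := by
    intro m g hg c
    rw [Matrix.mulVec_sum]
    simp only [Matrix.mulVec_smul, hSv, sum_dotProduct, dotProduct_sum, smul_dotProduct,
      dotProduct_smul, orth, smul_eq_mul]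
    refine Finset.sum_congr rfl fun j _ => ?_
    rw [Finset.sum_eq_single j]
    · rw [if_pos rfl]
      ring
    · intro i _ hij
      rw [if_neg fun h => hij (hg h)]
      ring
    · simp
  have quad : ∀ c : ι → ℝ, (∑ j, c j • v j) ⬝ᵥ S *ᵥ (∑ j, c j • v j) = ∑ j, e j * c j ^ 2 := by
    intro c
    rw [Matrix.mulVec_sum]
    simp only [Matrix.mulVec_smul, hSv, sum_dotProduct, dotProduct_sum, smul_dotProduct,
      dotProduct_smul, orth, smul_eq_mul]
    refine Finset.sum_congr rfl fun j _ => ?_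
    rw [Finset.sum_eq_single j]
    · rw [if_pos rfl]
      ring
    · intro i _ hij
      rw [if_neg hij]
      ring
    · simp
  have norm : ∀ c : ι → ℝ, (∑ j, c j • v j) ⬝ᵥ (∑ j, c j • v j) = ∑ j, c j ^ 2 := by
    intro c
    simp only [sum_dotProduct, dotProduct_sum, smul_dotProduct,
      dotProduct_smul, orth, smul_eq_mul]
    refine Finset.sum_congr rfl fun j _ => ?_
    rw [Finset.sum_eq_single j]
    · rw [if_pos rfl]
      ring
    · intro i _ hij
      rw [if_neg hij]
      ring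
    · simp
  -- the eigenvalues are at least `-1`
  have ge : ∀ j, -1 ≤ e j := by
    intro j
    have h1 := hlow (v j)
    rw [hSv, dotProduct_smul, orth, if_pos rfl, smul_eq_mul, mul_one] at h1
    linarith
  -- at most three of them are negative
  have card : (Finset.univ.filter fun j => e j < 0).card ≤ 3 := by
    by_contra hcon
    push Not at hcon
    obtain ⟨T, hT, hT4⟩ := Finset.exists_subset_card_eq (show 4 ≤ _ from hcon)
    set g : Fin 4 → ι := fun l => ((T.equivFinOfCardEq hT4).symm l : ι) with hg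
    have hginj : Function.Injective g := fun a b hab =>
      (T.equivFinOfCardEq hT4).symm.injective (Subtype.ext hab)
    have hgneg : ∀ l, e (g l) < 0 := fun l =>
      (Finset.mem_filter.mp (hT ((T.equivFinOfCardEq hT4).symm l).2)).2
    obtain ⟨c, hc0, hc⟩ := hneg (fun l => v (g l))
    rw [quad' 4 g hginj c] at hc
    obtain ⟨l0, hl0⟩ := Function.ne_iff.mp hc0
    have h1 : ∑ l, e (g l) * c l ^ 2 < ∑ _l : Fin 4, (0 : ℝ) :=
      Finset.sum_lt_sum (fun l _ => mul_nonpos_of_nonpos_of_nonneg (hgneg l).le (sq_nonneg _))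
        ⟨l0, Finset.mem_univ _, mul_neg_of_neg_of_pos (hgneg l0)
          (sq_pos_iff.mpr hl0)⟩
    simp only [Finset.sum_const_zero] at h1
    linarith
  have tr : ∑ j, e j = 0 := by
    have h1 := hS.trace_eq_sum_eigenvalues
    rw [htr] at h1
    simpa using h1.symm
  have le3 : ∀ j, e j ≤ 3 := by
    intro j
    by_cases hj : e j ≤ 0
    · linarith
    · push Not at hj
      have h1 : ∑ i, e i = ∑ i ∈ Finset.univ.filter (fun i => e i < 0), e i +
          ∑ i ∈ Finset.univ.filter (fun i => ¬ e i < 0), e i :=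
        (Finset.sum_filter_add_sum_filter_not _ _ _).symm
      have h2 : -3 ≤ ∑ i ∈ Finset.univ.filter (fun i => e i < 0), e i := by
        have h3 : ∑ i ∈ Finset.univ.filter (fun i => e i < 0), (-1 : ℝ) ≤
            ∑ i ∈ Finset.univ.filter (fun i => e i < 0), e i :=
          Finset.sum_le_sum fun i _ => ge i
        rw [Finset.sum_const, nsmul_eq_mul] at h3
        have h4 : ((Finset.univ.filter fun j => e j < 0).card : ℝ) ≤ 3 := by exact_mod_cast card
        linarith
      have h3 : e j ≤ ∑ i ∈ Finset.univ.filter (fun i => ¬ e i < 0), e i :=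
        Finset.single_le_sum (f := e) (fun i hi => not_lt.mp (Finset.mem_filter.mp hi).2)
          (Finset.mem_filter.mpr ⟨Finset.mem_univ j, not_lt.mpr hj.le⟩)
      linarith
  rw [expand y, quad, norm, Finset.mul_sum]
  exact Finset.sum_le_sum fun j _ => mul_le_mul_of_nonneg_right (le3 j) (sq_nonneg _)

/-- The same with a scaling: `G` is a symmetric matrix with zero diagonal and at most three
negative eigenvalues, and `G + diag δ` is positive semidefinite. Then `G ≤ 3 diag δ`. -/
theorem scaled_quad_le (G : ι → ι → ℝ) (hsymm : ∀ i j, G i j = G j i) (hdiag : ∀ i, G i i = 0)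
    (δ : ι → ℝ) (hδ : ∀ i, 0 < δ i)
    (hlow : ∀ x : ι → ℝ, 0 ≤ ∑ i, ∑ j, x i * x j * G i j + ∑ i, δ i * x i ^ 2)
    (hneg : ∀ f : Fin 4 → ι → ℝ, ∃ c : Fin 4 → ℝ, c ≠ 0 ∧
      0 ≤ ∑ i, ∑ j, (∑ l, c l * f l i) * (∑ l, c l * f l j) * G i j) (x : ι → ℝ) :
    ∑ i, ∑ j, x i * x j * G i j ≤ 3 * ∑ i, δ i * x i ^ 2 := by
  set r : ι → ℝ := fun i => Real.sqrt (δ i) with hr
  have hrpos : ∀ i, 0 < r i := fun i => Real.sqrt_pos.mpr (hδ i)
  have hrsq : ∀ i, r i * r i = δ i := fun i => Real.mul_self_sqrt (hδ i).le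
  let S : Matrix ι ι ℝ := Matrix.of fun i j => G i j / (r i * r j)
  have hquad : ∀ y : ι → ℝ, y ⬝ᵥ S *ᵥ y = ∑ i, ∑ j, (y i / r i) * (y j / r j) * G i j := by
    intro y
    simp only [dotProduct, Matrix.mulVec, S, Matrix.of_apply, Finset.mul_sum]
    refine Finset.sum_congr rfl fun i _ => Finset.sum_congr rfl fun j _ => ?_
    have := (hrpos i).ne'
    have := (hrpos j).ne'
    field_simp
  have hnorm : ∀ y : ι → ℝ, y ⬝ᵥ y = ∑ i, δ i * (y i / r i) ^ 2 := by
    intro y
    simp only [dotProduct]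
    refine Finset.sum_congr rfl fun i _ => ?_
    rw [← hrsq i]
    have := (hrpos i).ne'
    field_simp
  have hS : S.IsHermitian := by
    ext i j
    simp only [S, Matrix.conjTranspose_apply, Matrix.of_apply, star_trivial]
    rw [hsymm j i, mul_comm]
  have htr : S.trace = 0 := by
    simp [Matrix.trace, S, hdiag]
  have key := quad_le S hS htr (fun y => by rw [hquad, hnorm]; exact hlow _) (fun f => by
    obtain ⟨c, hc0, hc⟩ := hneg (fun l i => f l i / r i)
    refine ⟨c, hc0, ?_⟩
    rw [hquad]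
    convert hc using 6 with i _ j _
    · rw [Finset.sum_apply, Finset.sum_div]
      exact Finset.sum_congr rfl fun l _ => by simp [mul_div_assoc]
    · rw [Finset.sum_apply, Finset.sum_div]
      exact Finset.sum_congr rfl fun l _ => by simp [mul_div_assoc])
    (fun i => r i * x i)
  rw [hquad, hnorm] at key
  have h1 : ∀ i, r i * x i / r i = x i := fun i => mul_div_cancel_left₀ _ (hrpos i).ne'
  simp only [h1] at key
  exact key

end Pool.Agent.Helper88.TC
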